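import Pool.Agent.Helper701.Duo.Arith

set_option autoImplicit false

namespace Pool.Agent.Results.MP_b7d892_co.Unbounded

open Pool.Agent.Helper701.Duo

theorem rep_eq (m : ℕ) :
    rep m = (List.replicate m [true, true, false, true, true, false, true, false, true, false]).flatten := by
  induction m with
  | zero => rfl
  | succ m ih => rw [rep, ih, List.replicate_succ, List.flatten_cons]; rfl

theorem family (m : ℕ) :
    nim (true :: (List.replicate m
      [true, true, false, true, true, false, true, false, true, false]).flatten) = 2 * m := by
  have h := fam_nim (a := 12) (c := 0) (by norm_num) (by norm_num) m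
  rw [val_main, fam, rep_eq] at h
  have h1 : la 12 = [true] := rfl
  have h2 : rc 0 = [] := rfl
  rw [h1, h2, List.append_nil] at h
  exact h

/-- The nim-values of Duotaire positions are unbounded; explicitly, the position
`1 (1101101010)^m` has nim-value `2 m`. -/
theorem result :
    (∀ k : ℕ, ∃ w : List Bool, w ≠ [] ∧ k ≤ nim w) ∧
    ∀ m : ℕ, nim (true :: (List.replicate m
      [true, true, false, true, true, false, true, false, true, false]).flatten) = 2 * m := by
  refine ⟨fun k => ⟨true :: (List.replicate k
      [true, true, false, true, true, false, true, false, true, false]).flatten, by simp, ?_⟩, family⟩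
  rw [family]
  omega

end Pool.Agent.Results.MP_b7d892_co.Unbounded
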